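import Pool.Agent.Q203.TCA.Space

/-!
# A transitive action on the space of `Space`
-/

set_option autoImplicit false

open Set Topology

namespace Q203.TCA

variable {X : Type} [TopologicalSpace X] (D : Data X)

/-- Symmetries of the data over a sequence of maps of `X`. -/
structure Sym (s : ℕ → X → X) where
  σ : ℕ → ℕ → ℕ
  inv : ∀ n d, σ n (σ n d) = d
  comm : ∀ n d, D.π (σ n d) = Sum.map (s n) id (D.π d)
  lev : ∀ n d, D.ℓ (σ n d) = D.ℓ d

def mapLR (f : X → X) (g : ℕ × C → ℕ × C) : YY D → YY D := Sum.map f g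

@[simp] theorem mapLR_l (f : X → X) (g : ℕ × C → ℕ × C) (x : X) :
    mapLR D f g (YY.l D x) = YY.l D (f x) := rfl
@[simp] theorem mapLR_r (f : X → X) (g : ℕ × C → ℕ × C) (p : ℕ × C) :
    mapLR D f g (YY.r D p) = YY.r D (g p) := rfl

theorem cont_of (f : YY D → YY D) (g : PP X → PP X) (hg : Continuous g)
    (h : ∀ y, io D (f y) = g (io D y)) : Continuous f := by
  rw [(io_ind D).continuous_iff]
  have : io D ∘ f = g ∘ io D := funext h
  rw [this]
  exact hg.comp (io_cont D)

/-- homeomorphism from an involution -/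
def homeoInv {Y : Type*} [TopologicalSpace Y] (f : Y → Y) (hf : Continuous f)
    (h : ∀ y, f (f y) = y) : Y ≃ₜ Y where
  toFun := f
  invFun := f
  left_inv := h
  right_inv := h
  continuous_toFun := hf
  continuous_invFun := hf

def flip (n : ℕ) (c : C) : C := Function.update c n (!(c n))

theorem flip_flip (n : ℕ) (c : C) : flip n (flip n c) = c := by
  funext m
  by_cases h : m = n
  · subst h
    simp [flip]
  · simp [flip, h]

theorem continuous_flip (n : ℕ) : Continuous (flip n) := by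
  refine continuous_pi fun m => ?_
  by_cases h : m = n
  · subst h
    have : (fun c : C => flip m c m) = fun c => !(c m) := by
      funext c
      simp [flip]
    rw [this]
    exact (continuous_of_discreteTopology (f := Bool.not)).comp (continuous_apply m)
  · have : (fun c : C => flip n c m) = fun c => c m := by
      funext c
      simp [flip, h]
    rw [this]
    exact continuous_apply m

variable {s : ℕ → X → X}

/-- The lift of `s n`. -/
def fA (S : Sym D s) (n : ℕ) : YY D → YY D := mapLR D (s n) (fun p => (S.σ n p.1, p.2))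

theorem fA_inv (S : Sym D s) (hinv : ∀ n x, s n (s n x) = x) (n : ℕ) (y : YY D) :
    fA D S n (fA D S n y) = y := by
  rcases cases D y with ⟨x, rfl⟩ | ⟨⟨d, c⟩, rfl⟩
  · simp [fA, hinv]
  · simp [fA, S.inv]

theorem fA_cont (S : Sym D s) (hs : ∀ n, Continuous (s n)) (n : ℕ) : Continuous (fA D S n) := by
  refine cont_of D _ (fun p => (Sum.map (s n) id p.1,
    fun m => Sum.map id (fun q : ℕ × C => (S.σ n q.1, q.2)) (p.2 m))) ?_ ?_
  · refine Continuous.prodMk ?_ ?_
    · exact ((hs n).sumMap continuous_id).comp continuous_fst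
    · refine continuous_pi fun m => ?_
      refine Continuous.comp ?_ ((continuous_apply m).comp continuous_snd)
      refine continuous_id.sumMap ?_
      exact ((continuous_of_discreteTopology (f := S.σ n)).comp continuous_fst).prodMk continuous_snd
  · intro y
    rcases cases D y with ⟨x, rfl⟩ | ⟨⟨d, c⟩, rfl⟩
    · simp [fA]
    · simp only [fA, mapLR_r, io_r, S.comm, S.lev, Prod.mk.injEq, true_and]
      funext m
      by_cases h : D.ℓ d ≤ m <;> simp [h]

/-- The flip of the `n`-th bit in all Cantor sets. -/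
def fC (n : ℕ) : YY D → YY D := mapLR D id (fun p => (p.1, flip n p.2))

theorem fC_inv (n : ℕ) (y : YY D) : fC D n (fC D n y) = y := by
  rcases cases D y with ⟨x, rfl⟩ | ⟨⟨d, c⟩, rfl⟩
  · simp [fC]
  · simp [fC, flip_flip]

theorem fC_cont (n : ℕ) : Continuous (fC D n) := by
  refine cont_of D _ (fun p => (p.1,
    fun m => Sum.map id (fun q : ℕ × C => (q.1, flip n q.2)) (p.2 m))) ?_ ?_
  · refine Continuous.prodMk continuous_fst ?_
    refine continuous_pi fun m => ?_
    refine Continuous.comp ?_ ((continuous_apply m).comp continuous_snd)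
    refine continuous_id.sumMap ?_
    exact continuous_fst.prodMk ((continuous_flip n).comp continuous_snd)
  · intro y
    rcases cases D y with ⟨x, rfl⟩ | ⟨⟨d, c⟩, rfl⟩
    · simp [fC]
    · simp only [fC, mapLR_r, io_r, Prod.mk.injEq, true_and]
      funext m
      by_cases h : D.ℓ d ≤ m <;> simp [h]

/-- The exchange of two Cantor sets. -/
def fB (a b : ℕ) : YY D → YY D := mapLR D id (fun p => (Equiv.swap a b p.1, p.2))

theorem fB_inv (a b : ℕ) (y : YY D) : fB D a b (fB D a b y) = y := by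
  rcases cases D y with ⟨x, rfl⟩ | ⟨⟨d, c⟩, rfl⟩
  · simp [fB]
  · simp [fB]

theorem fB_cont (a b : ℕ) : Continuous (fB D a b) := by
  rw [continuous_iff_continuousAt]
  intro y
  rcases cases D y with ⟨x, rfl⟩ | ⟨p, rfl⟩
  · have h1 : ∀ᶠ z in 𝓝 (YY.l D x), fB D a b z = z := by
      have ha := (fiber_clopen D a).1.isOpen_compl
      have hb := (fiber_clopen D b).1.isOpen_compl
      refine Filter.eventually_of_mem ((ha.inter hb).mem_nhds ⟨?_, ?_⟩) ?_
      · rintro ⟨c, hc⟩
        exact l_ne_r D _ _ hc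
      · rintro ⟨c, hc⟩
        exact l_ne_r D _ _ hc
      · rintro z ⟨hz1, hz2⟩
        rcases cases D z with ⟨x, rfl⟩ | ⟨⟨d, c⟩, rfl⟩
        · simp [fB]
        · have h1 : d ≠ a := fun h => hz1 ⟨c, by rw [h]⟩
          have h2 : d ≠ b := fun h => hz2 ⟨c, by rw [h]⟩
          simp [fB, Equiv.swap_apply_of_ne_of_ne h1 h2]
    exact (continuousAt_congr h1).2 continuousAt_id
  · rw [← (emb_r D).continuousAt_iff]
    have : fB D a b ∘ YY.r D = YY.r D ∘ (fun p : ℕ × C => (Equiv.swap a b p.1, p.2)) := rfl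
    rw [this]
    refine Continuous.continuousAt ((cont_r D).comp ?_)
    exact ((continuous_of_discreteTopology (f := Equiv.swap a b)).comp continuous_fst).prodMk
      continuous_snd

abbrev Ix : Type := ℕ ⊕ (ℕ × ℕ) ⊕ ℕ

/-- The generating homeomorphisms. -/
def gens (S : Sym D s) (hs : ∀ n, Continuous (s n)) (hinv : ∀ n x, s n (s n x) = x) :
    Ix → (YY D ≃ₜ YY D)
  | Sum.inl n => homeoInv (fA D S n) (fA_cont D S hs n) (fA_inv D S hinv n)
  | Sum.inr (Sum.inl p) => homeoInv (fB D p.1 p.2) (fB_cont D _ _) (fB_inv D _ _)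
  | Sum.inr (Sum.inr n) => homeoInv (fC D n) (fC_cont D n) (fC_inv D n)

/-- The action of the free group. -/
@[instance_reducible] def act (S : Sym D s) (hs : ∀ n, Continuous (s n)) (hinv : ∀ n x, s n (s n x) = x) :
    MulAction (FreeGroup Ix) (YY D) where
  smul g y := (FreeGroup.lift (gens D S hs hinv) g) y
  one_smul y := by
    show (FreeGroup.lift (gens D S hs hinv) 1) y = y
    rw [map_one]
    rfl
  mul_smul g h y := by
    show (FreeGroup.lift (gens D S hs hinv) (g * h)) y = _
    rw [map_mul]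
    rfl

/-- The orbit relation. -/
def RR (E : X → X → Prop) : YY D → YY D → Prop
  | Sum.inl x, Sum.inl y => E x y
  | Sum.inr p, Sum.inr q => ∃ N, ∀ n, N ≤ n → p.2 n = q.2 n
  | _, _ => False

@[simp] theorem RR_ll (E : X → X → Prop) (x y : X) : RR D E (YY.l D x) (YY.l D y) ↔ E x y := Iff.rfl
@[simp] theorem RR_rr (E : X → X → Prop) (p q : ℕ × C) :
  RR D E (YY.r D p) (YY.r D q) ↔ ∃ N, ∀ n, N ≤ n → p.2 n = q.2 n := Iff.rfl
@[simp] theorem RR_lr (E : X → X → Prop) (x : X) (q : ℕ × C) :
  RR D E (YY.l D x) (YY.r D q) ↔ False := Iff.rfl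
@[simp] theorem RR_rl (E : X → X → Prop) (x : X) (q : ℕ × C) :
  RR D E (YY.r D q) (YY.l D x) ↔ False := Iff.rfl

theorem RR_equiv {E : X → X → Prop} (hE : Equivalence E) : Equivalence (RR D E) := by
  refine ⟨fun y => ?_, fun {a b} => ?_, fun {a b c} => ?_⟩
  · rcases cases D y with ⟨x, rfl⟩ | ⟨p, rfl⟩
    · exact hE.refl x
    · exact ⟨0, fun _ _ => rfl⟩
  · rcases cases D a with ⟨x, rfl⟩ | ⟨p, rfl⟩ <;> rcases cases D b with ⟨y, rfl⟩ | ⟨q, rfl⟩
    · exact hE.symm
    · exact id
    · exact id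
    · rintro ⟨N, hN⟩
      exact ⟨N, fun n hn => (hN n hn).symm⟩
  · rcases cases D a with ⟨x, rfl⟩ | ⟨p, rfl⟩ <;> rcases cases D b with ⟨y, rfl⟩ | ⟨q, rfl⟩ <;>
      rcases cases D c with ⟨z, rfl⟩ | ⟨t, rfl⟩
    · exact hE.trans
    · exact fun _ h => h
    · exact fun h _ => h.elim
    · exact fun h _ => h.elim
    · exact fun h _ => h.elim
    · exact fun h _ => h.elim
    · exact fun _ h => h
    · rintro ⟨N, hN⟩ ⟨M, hM⟩
      exact ⟨max N M, fun n hn => (hN n (le_trans (le_max_left _ _) hn)).trans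
        (hM n (le_trans (le_max_right _ _) hn))⟩

theorem exists_flips (N : ℕ) : ∀ c c' : C, (∀ n, N ≤ n → c n = c' n) →
    ∃ l : List ℕ, l.foldr flip c = c' := by
  induction N with
  | zero =>
    intro c c' h
    exact ⟨[], funext fun n => h n (Nat.zero_le n)⟩
  | succ N ih =>
    intro c c' h
    by_cases h1 : c N = c' N
    · refine ih c c' fun n hn => ?_
      rcases Nat.eq_or_lt_of_le hn with rfl | h2
      · exact h1
      · exact h n h2
    · obtain ⟨l, hl⟩ := ih c (flip N c') (by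
        intro n hn
        rcases Nat.eq_or_lt_of_le hn with rfl | h2
        · simp only [flip, Function.update_self]
          revert h1
          cases c N <;> cases c' N <;> simp
        · have : n ≠ N := by omega
          simp only [flip, Function.update_of_ne this]
          exact h n h2)
      refine ⟨N :: l, ?_⟩
      rw [List.foldr_cons, hl, flip_flip]

section orbit

variable (S : Sym D s) (hs : ∀ n, Continuous (s n)) (hinv : ∀ n x, s n (s n x) = x)
  {E : X → X → Prop} (hE : Equivalence E) (hsE : ∀ x y, E x y ↔ ∃ n, s n x = y)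

include hE hsE in
theorem gens_RR (i : Ix) (y : YY D) : RR D E y (gens D S hs hinv i y) := by
  rcases cases D y with ⟨x, rfl⟩ | ⟨⟨d, c⟩, rfl⟩
  · rcases i with n | p | n
    · show E x (s n x)
      exact (hsE _ _).2 ⟨n, rfl⟩
    · exact hE.refl x
    · exact hE.refl x
  · rcases i with n | p | n
    · exact ⟨0, fun _ _ => rfl⟩
    · exact ⟨0, fun _ _ => rfl⟩
    · refine ⟨n + 1, fun m hm => ?_⟩
      have : m ≠ n := by omega
      show c m = flip n c m
      simp [flip, this]

include hE hsE in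
theorem lift_RR (g : FreeGroup Ix) : ∀ y : YY D, RR D E y (FreeGroup.lift (gens D S hs hinv) g y) := by
  have hR := RR_equiv D hE
  refine FreeGroup.induction_on g ?_ ?_ ?_ ?_
  · intro y
    rw [map_one]
    exact hR.refl y
  · intro i y
    rw [FreeGroup.lift_apply_of]
    exact gens_RR D S hs hinv hE hsE i y
  · intro i _ y
    rw [map_inv, FreeGroup.lift_apply_of]
    have h1 := gens_RR D S hs hinv hE hsE i ((gens D S hs hinv i)⁻¹ y)
    have h2 : gens D S hs hinv i ((gens D S hs hinv i)⁻¹ y) = y :=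
      (gens D S hs hinv i).apply_symm_apply y
    rw [h2] at h1
    exact hR.symm h1
  · intro g h ihg ihh y
    rw [map_mul]
    exact hR.trans (ihh y) (ihg _)

theorem exists_r (d d' : ℕ) (c c' : C) (h : ∃ N, ∀ n, N ≤ n → c n = c' n) :
    ∃ g : FreeGroup Ix, FreeGroup.lift (gens D S hs hinv) g (YY.r D (d, c)) = YY.r D (d', c') := by
  obtain ⟨N, hN⟩ := h
  obtain ⟨l, hl⟩ := exists_flips N c c' hN
  refine ⟨(l.map (fun n => FreeGroup.of (Sum.inr (Sum.inr n)))).prod *
    FreeGroup.of (Sum.inr (Sum.inl (d, d'))), ?_⟩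
  rw [map_mul, FreeGroup.lift_apply_of]
  have h1 : gens D S hs hinv (Sum.inr (Sum.inl (d, d'))) (YY.r D (d, c)) = YY.r D (d', c) := by
    show YY.r D (Equiv.swap d d' d, c) = _
    rw [Equiv.swap_apply_left]
  show (FreeGroup.lift (gens D S hs hinv) _) (gens D S hs hinv (Sum.inr (Sum.inl (d, d')))
    (YY.r D (d, c))) = _
  rw [h1]
  clear h1 hN
  induction l generalizing c' with
  | nil =>
    simp only [List.map_nil, List.prod_nil, map_one]
    simp only [List.foldr_nil] at hl
    rw [hl]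
    rfl
  | cons n l ih =>
    simp only [List.foldr_cons] at hl
    simp only [List.map_cons, List.prod_cons, map_mul, FreeGroup.lift_apply_of]
    show gens D S hs hinv (Sum.inr (Sum.inr n)) ((FreeGroup.lift (gens D S hs hinv) _)
      (YY.r D (d', c))) = _
    rw [ih _ rfl]
    show YY.r D (d', flip n _) = _
    rw [hl]

include hE hsE in
theorem orbit_iff (y z : YY D) :
    RR D E y z ↔ ∃ g : FreeGroup Ix, FreeGroup.lift (gens D S hs hinv) g y = z := by
  constructor
  · rcases cases D y with ⟨x, rfl⟩ | ⟨p, rfl⟩ <;> rcases cases D z with ⟨x', rfl⟩ | ⟨q, rfl⟩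
    · intro h
      obtain ⟨n, hn⟩ := (hsE _ _).1 ((RR_ll D E x x').1 h)
      refine ⟨FreeGroup.of (Sum.inl n), ?_⟩
      rw [FreeGroup.lift_apply_of]
      show YY.l D (s n x) = _
      rw [hn]
    · exact fun h => h.elim
    · exact fun h => h.elim
    · intro h
      exact exists_r D S hs hinv p.1 q.1 p.2 q.2 h
  · rintro ⟨g, rfl⟩
    exact lift_RR D S hs hinv hE hsE g y

end orbit

theorem dense_E0 (c : C) : Dense {c' : C | ∃ N, ∀ n, N ≤ n → c n = c' n} := by
  rw [dense_iff_inter_open]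
  intro U hU ⟨b, hb⟩
  obtain ⟨I, u, hu, huU⟩ := isOpen_pi_iff.1 hU b hb
  refine ⟨fun n => if n ≤ I.sup id then b n else c n, huU ?_, ⟨I.sup id + 1, ?_⟩⟩
  · intro i hi
    have h2 : i ≤ I.sup id := Finset.le_sup (f := id) hi
    simp only [h2, if_true]
    exact (hu i hi).2
  · intro n hn
    have h3 : ¬ n ≤ I.sup id := by omega
    simp [h3]

/-- Existence of data and symmetries. -/
theorem exists_data [SecondCountableTopology X] (s : ℕ → X → X)
    (hinv : ∀ n x, s n (s n x) = x) {E : X → X → Prop} (hE : Equivalence E)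
    (hsE : ∀ x y, E x y ↔ ∃ n, s n x = y) :
    ∃ D : Data X, Nonempty (Sym D s) := by
  classical
  obtain ⟨Q, hQ1, hQ2⟩ := TopologicalSpace.exists_countable_dense X
  let D₀ : Set X := {y | ∃ x ∈ Q, E x y}
  have hc : D₀.Countable := by
    have : D₀ ⊆ ⋃ n, s n '' Q := by
      rintro y ⟨x, hx, hxy⟩
      obtain ⟨n, hn⟩ := (hsE _ _).1 hxy
      exact mem_iUnion.2 ⟨n, x, hx, hn⟩
    exact (countable_iUnion fun n => hQ1.image _).mono this
  have hinvD : ∀ n x, x ∈ D₀ → s n x ∈ D₀ := by
    rintro n x ⟨q, hq, hqx⟩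
    exact ⟨q, hq, hE.trans hqx ((hsE _ _).2 ⟨n, rfl⟩)⟩
  have : Countable D₀ := hc.to_subtype
  have : Countable ((D₀ × ℕ) ⊕ ℕ) := inferInstance
  have : Infinite ((D₀ × ℕ) ⊕ ℕ) := inferInstance
  obtain ⟨e⟩ : Nonempty (ℕ ≃ ((D₀ × ℕ) ⊕ ℕ)) := nonempty_equiv_of_countable
  let π : ℕ → X ⊕ Unit := fun k => Sum.map (fun p : D₀ × ℕ => (p.1 : X)) (fun _ => ()) (e k)
  let ℓ : ℕ → ℕ := fun k => Sum.elim (fun p : D₀ × ℕ => p.2) (fun _ => 0) (e k)
  let D : Data X := {
    π := π
    ℓ := ℓ
    pos := by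
      intro d hd
      rcases h : e d with p | j
      · exact ⟨p.1, by simp [π, h]⟩
      · simp [ℓ, h] at hd
    dense := by
      intro U hU hne N
      obtain ⟨x, hxU, hxQ⟩ := dense_iff_inter_open.1 hQ2 U hU hne
      refine ⟨e.symm (Sum.inl (⟨x, x, hxQ, hE.refl x⟩, N)), ?_, x, hxU, ?_⟩
      · simp [ℓ]
      · simp [π] }
  refine ⟨D, ⟨{
    σ := fun n k => e.symm (Sum.map (fun p : D₀ × ℕ => (⟨s n p.1, hinvD n _ p.1.2⟩, p.2)) id (e k))
    inv := ?_
    comm := ?_
    lev := ?_ }⟩⟩
  · intro n d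
    rcases h : e d with p | j
    · simp only [h, Sum.map_inl, Equiv.apply_symm_apply, hinv]
      rw [← h, Equiv.symm_apply_apply]
    · simp only [h, Sum.map_inr, Equiv.apply_symm_apply, id]
      rw [← h, Equiv.symm_apply_apply]
  · intro n d
    rcases h : e d with p | j
    · simp [D, π, h]
    · simp [D, π, h]
  · intro n d
    rcases h : e d with p | j
    · simp [D, ℓ, h]
    · simp [D, ℓ, h]

end Q203.TCA
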