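import Mathlib

/-!
# A measurable Schröder-Bernstein theorem that keeps track of the maps
-/

set_option autoImplicit false

open Set

namespace Q203.TCA

variable {α β : Type*} [MeasurableSpace α] [MeasurableSpace β]

theorem sb_fixed {f : α → β} {g : β → α} (hf : MeasurableEmbedding f)
    (hg : MeasurableEmbedding g) : ∃ A : Set α, MeasurableSet A ∧ (g '' (f '' A)ᶜ)ᶜ = A := by
  let F : Set α → Set α := fun A => (g '' (f '' A)ᶜ)ᶜ
  have Fmono : ∀ {A B}, A ⊆ B → F A ⊆ F B := fun h =>
    compl_subset_compl.mpr <| Set.image_mono <| compl_subset_compl.mpr <| Set.image_mono h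
  let X : ℕ → Set α := fun n => F^[n] univ
  refine ⟨iInter X, ?_, ?_⟩
  · refine MeasurableSet.iInter fun n ↦ ?_
    induction n with
    | zero => exact MeasurableSet.univ
    | succ n ih =>
      show MeasurableSet (F^[n+1] univ)
      rw [Function.iterate_succ', Function.comp_apply]
      exact (hg.measurableSet_image' (hf.measurableSet_image' ih).compl).compl
  apply subset_antisymm
  · apply subset_iInter
    intro n
    cases n
    · exact subset_univ _
    show _ ⊆ F^[_+1] univ
    rw [Function.iterate_succ', Function.comp_apply]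
    exact Fmono (iInter_subset _ _)
  rintro x hx ⟨y, hy, rfl⟩
  rw [mem_iInter] at hx
  apply hy
  rw [hf.injective.injOn.image_iInter_eq]
  rw [mem_iInter]
  intro n
  have hx := hx n.succ
  change g y ∈ F^[n+1] univ at hx
  rw [Function.iterate_succ', Function.comp_apply] at hx
  by_contra h
  apply hx
  exact ⟨y, h, rfl⟩

/-- The measurable Schröder-Bernstein bijection agrees everywhere with `f` or with `g⁻¹`. -/
theorem sb {f : α → β} {g : β → α} (hf : MeasurableEmbedding f)
    (hg : MeasurableEmbedding g) : ∃ ψ : α ≃ᵐ β, ∀ x, ψ x = f x ∨ g (ψ x) = x := by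
  classical
  obtain ⟨A, hA, hfix⟩ := sb_fixed hf hg
  have hAc : g '' (f '' A)ᶜ = Aᶜ := by rw [← compl_compl (g '' (f '' A)ᶜ), hfix]
  have h1 : ∀ x, x ∉ A → ∃ b, b ∉ f '' A ∧ g b = x := by
    intro x hx
    have : x ∈ g '' (f '' A)ᶜ := by rw [hAc]; exact hx
    exact this
  have h2 : ∀ b, b ∉ f '' A → g b ∉ A := by
    intro b hb
    have : g b ∈ g '' (f '' A)ᶜ := ⟨b, hb, rfl⟩
    rw [hAc] at this
    exact this
  choose k hk1 hk2 using h1
  have h3 : ∀ b, b ∈ f '' A → ∃ x, x ∈ A ∧ f x = b := fun b hb => hb
  choose m hm1 hm2 using h3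
  let F : α → β := fun x => if h : x ∈ A then f x else k x h
  let G : β → α := fun b => if h : b ∈ f '' A then m b h else g b
  have F1 : ∀ x, x ∈ A → F x = f x := fun x hx => by simp only [F, hx, dif_pos]
  have F2 : ∀ x (hx : x ∉ A), F x = k x hx := fun x hx => by
    simp only [F, hx, dif_neg, not_false_iff]
  have G1 : ∀ b (hb : b ∈ f '' A), G b = m b hb := fun b hb => dif_pos hb
  have G2 : ∀ b, b ∉ f '' A → G b = g b := fun b hb => dif_neg hb
  clear_value F G
  have hFG : ∀ b, F (G b) = b := by
    intro b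
    by_cases hb : b ∈ f '' A
    · rw [G1 b hb, F1 _ (hm1 b hb)]
      exact hm2 b hb
    · rw [G2 b hb, F2 _ (h2 b hb)]
      exact hg.injective (hk2 _ (h2 b hb))
  have hGF : ∀ x, G (F x) = x := by
    intro x
    by_cases hx : x ∈ A
    · have h4 : f x ∈ f '' A := ⟨x, hx, rfl⟩
      rw [F1 x hx, G1 _ h4]
      exact hf.injective (hm2 _ h4)
    · rw [F2 x hx, G2 _ (hk1 x hx)]
      exact hk2 x hx
  have hF : Measurable F := by
    intro S hS
    have : F ⁻¹' S = (A ∩ f ⁻¹' S) ∪ g '' ((f '' A)ᶜ ∩ S) := by
      ext x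
      simp only [mem_preimage, mem_union, mem_inter_iff]
      by_cases hx : x ∈ A
      · rw [F1 x hx]
        constructor
        · exact fun h => Or.inl ⟨hx, h⟩
        · rintro (h | ⟨b, ⟨hb1, -⟩, hb⟩)
          · exact h.2
          · exact absurd hx (hb ▸ h2 b hb1)
      · rw [F2 x hx]
        constructor
        · intro h
          exact Or.inr ⟨k x hx, ⟨hk1 x hx, h⟩, hk2 x hx⟩
        · rintro (h | ⟨b, ⟨hb1, hb2⟩, hb⟩)
          · exact absurd h.1 hx
          · have : k x hx = b := hg.injective ((hk2 x hx).trans hb.symm)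
            rw [this]
            exact hb2
    rw [this]
    exact (hA.inter (hf.measurable hS)).union
      (hg.measurableSet_image' ((hf.measurableSet_image' hA).compl.inter hS))
  have hG : Measurable G := by
    intro S hS
    have : G ⁻¹' S = (f '' (A ∩ S)) ∪ ((f '' A)ᶜ ∩ g ⁻¹' S) := by
      ext b
      simp only [mem_preimage, mem_union, mem_inter_iff]
      by_cases hb : b ∈ f '' A
      · rw [G1 b hb]
        constructor
        · intro h
          exact Or.inl ⟨m b hb, ⟨hm1 b hb, h⟩, hm2 b hb⟩
        · rintro (⟨x, ⟨hx1, hx2⟩, hx⟩ | h)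
          · have : m b hb = x := hf.injective ((hm2 b hb).trans hx.symm)
            rw [this]
            exact hx2
          · exact absurd hb h.1
      · rw [G2 b hb]
        constructor
        · exact fun h => Or.inr ⟨hb, h⟩
        · rintro (⟨x, ⟨hx1, -⟩, hx⟩ | h)
          · exact absurd ⟨x, hx1, hx⟩ hb
          · exact h.2
    rw [this]
    exact (hf.measurableSet_image' (hA.inter hS)).union
      ((hf.measurableSet_image' hA).compl.inter (hg.measurable hS))
  refine ⟨{ toFun := F, invFun := G, left_inv := hGF, right_inv := hFG,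
            measurable_toFun := hF, measurable_invFun := hG }, fun x => ?_⟩
  show F x = f x ∨ g (F x) = x
  by_cases hx : x ∈ A
  · left
    exact F1 x hx
  · right
    rw [F2 x hx]
    exact hk2 x hx

end Q203.TCA
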