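import Pool.Agent.Q203.TCA.Act
import Pool.Agent.Q203.TCA.SB
import Pool.Agent.TH286.CR.GE
import Pool.Agent.H139R3.MF.Top
import Pool.Agent.H139R3.FM

/-!
# Every nonsmooth countable Borel equivalence relation has a transitive realization
-/

set_option autoImplicit false

open Set Topology

namespace Q203.TCA

/-- Equality modulo finite. -/
def E0 (a b : C) : Prop := ∃ N, ∀ n, N ≤ n → a n = b n

theorem E0_refl (a : C) : E0 a a := ⟨0, fun _ _ => rfl⟩

/-- Interleaving. -/
def itl (p : ℕ × C) : C := fun k => if k % 2 = 0 then p.2 (k / 2) else decide (k / 2 < p.1)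

theorem itl_even (p : ℕ × C) (m : ℕ) : itl p (2 * m) = p.2 m := by
  have h1 : 2 * m % 2 = 0 := by omega
  have h2 : 2 * m / 2 = m := by omega
  simp [itl, h2]

theorem itl_odd (p : ℕ × C) (m : ℕ) : itl p (2 * m + 1) = decide (m < p.1) := by
  have h1 : ¬ (2 * m + 1) % 2 = 0 := by omega
  have h2 : (2 * m + 1) / 2 = m := by omega
  simp [itl, h2]

theorem itl_inj : Function.Injective itl := by
  rintro ⟨n, z⟩ ⟨n', z'⟩ h
  have h1 : z = z' := by
    funext m
    have := congrFun h (2 * m)
    rwa [itl_even, itl_even] at this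
  have h2 : ∀ m, m < n ↔ m < n' := by
    intro m
    have := congrFun h (2 * m + 1)
    rwa [itl_odd, itl_odd, decide_eq_decide] at this
  have h3 : n = n' := by
    have h4 := h2 n
    have h5 := h2 n'
    omega
  rw [h1, h3]

theorem itl_E0 (p q : ℕ × C) : E0 (itl p) (itl q) ↔ E0 p.2 q.2 := by
  constructor
  · rintro ⟨N, hN⟩
    refine ⟨N, fun m hm => ?_⟩
    have := hN (2 * m) (by omega)
    rwa [itl_even, itl_even] at this
  · rintro ⟨N, hN⟩
    refine ⟨2 * (N + p.1 + q.1) + 2, fun k hk => ?_⟩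
    rcases Nat.even_or_odd' k with ⟨m, rfl | rfl⟩
    · rw [itl_even, itl_even]
      exact hN m (by omega)
    · rw [itl_odd, itl_odd, decide_eq_decide]
      omega

theorem itl_meas : Measurable itl := by
  rw [measurable_pi_iff]
  intro k
  by_cases h : k % 2 = 0
  · simp only [itl, h, if_true]
    exact (measurable_pi_apply _).comp measurable_snd
  · simp only [itl, h, if_false]
    exact (Measurable.of_discrete (f := fun n : ℕ => decide (k / 2 < n))).comp measurable_fst

theorem bij_equiv {α β : Type*} [MeasurableSpace α] [StandardBorelSpace α] [MeasurableSpace β]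
    [MeasurableSpace.CountablySeparated β] (F : α → β) (hF : Measurable F)
    (hb : Function.Bijective F) : ∃ φ : α ≃ᵐ β, ∀ x, φ x = F x := by
  have he := hF.measurableEmbedding hb.1
  refine ⟨{ Equiv.ofBijective F hb with
    measurable_toFun := hF
    measurable_invFun := ?_ }, fun x => rfl⟩
  intro S hS
  have : (Equiv.ofBijective F hb).symm ⁻¹' S = F '' S := by
    rw [← Equiv.image_eq_preimage_symm]
    rfl
  show MeasurableSet ((Equiv.ofBijective F hb).symm ⁻¹' S)
  rw [this]
  exact he.measurableSet_image' hS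

/-- A nonsmooth countable Borel equivalence relation has an invariant Borel part isomorphic to
`I(ℕ) × E₀`. -/
theorem exists_part {X : Type} [MeasurableSpace X] [StandardBorelSpace X] (s : ℕ → X → X)
    (hs : ∀ n, Measurable (s n)) (hinv : ∀ n x, s n (s n x) = x) (E : X → X → Prop)
    (hE : Equivalence E) (hsE : ∀ x y, E x y ↔ ∃ n, s n x = y)
    (hns : ¬ ∃ f : X → ℝ, Measurable f ∧ ∀ x y, E x y ↔ f x = f y) :
    ∃ A : Set X, MeasurableSet A ∧ (∀ x y, E x y → x ∈ A → y ∈ A) ∧
      ∃ ψ : A ≃ᵐ ℕ × C, ∀ x y : A, E x y ↔ E0 (ψ x).2 (ψ y).2 := by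
  classical
  obtain ⟨j, hj, hjinj, hjE⟩ := Pool.Agent.TH286.CR.glimm_effros s hs hinv E hE hsE hns
  have hPC : PolishSpace C := polish_C
  have hSC : StandardBorelSpace C := inferInstance
  have hSNC : StandardBorelSpace (ℕ × C) := inferInstance
  let J : ℕ × C → X := fun p => j (itl p)
  have hJm : Measurable J := hj.comp itl_meas
  have hJi : Function.Injective J := hjinj.comp itl_inj
  have hJe : MeasurableEmbedding J := hJm.measurableEmbedding hJi
  have hJE : ∀ p q, E (J p) (J q) ↔ E0 p.2 q.2 := fun p q =>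
    (hjE _ _).trans (itl_E0 p q)
  let A : Set X := {x | ∃ n, s n x ∈ range J}
  have hAm : MeasurableSet A := by
    have : A = ⋃ n, s n ⁻¹' (range J) := by
      ext x
      simp [A]
    rw [this]
    exact MeasurableSet.iUnion fun n => hs n hJe.measurableSet_range
  have hA1 : ∀ x, x ∈ A ↔ ∃ p, E x (J p) := by
    intro x
    constructor
    · rintro ⟨n, p, hp⟩
      exact ⟨p, (hsE _ _).2 ⟨n, hp.symm⟩⟩
    · rintro ⟨p, hp⟩
      obtain ⟨n, hn⟩ := (hsE _ _).1 hp
      exact ⟨n, p, hn.symm⟩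
  have hAinv : ∀ x y, E x y → x ∈ A → y ∈ A := by
    intro x y hxy hx
    rw [hA1] at hx ⊢
    obtain ⟨p, hp⟩ := hx
    exact ⟨p, hE.trans (hE.symm hxy) hp⟩
  have hSA : StandardBorelSpace A := hAm.standardBorel
  -- the maps between `A` and `ℕ × C`
  let J0 : C → X := fun z => J (0, z)
  have hJ0m : Measurable J0 := hJm.comp (measurable_const.prodMk measurable_id)
  have hJ0e : MeasurableEmbedding J0 := hJ0m.measurableEmbedding (fun a b h => by
    have := hJi h
    exact congrArg Prod.snd this)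
  obtain ⟨i0, hi0, hi0J⟩ := hJ0e.exists_measurable_extend (g := id) measurable_id
    (fun _ => ⟨fun _ => false⟩)
  have hi0J' : ∀ z, i0 (J0 z) = z := fun z => congrFun hi0J z
  have hex : ∀ x : A, ∃ m, s m (x : X) ∈ range J0 := by
    intro x
    obtain ⟨p, hp⟩ := (hA1 x).1 x.2
    have : E (x : X) (J0 p.2) := hE.trans hp ((hJE _ _).2 (E0_refl _))
    obtain ⟨m, hm⟩ := (hsE _ _).1 this
    exact ⟨m, p.2, hm.symm⟩
  let mm : A → ℕ := fun x => Nat.find (hex x)
  have hmm : Measurable mm := measurable_find hex fun k =>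
    (hs k).comp measurable_subtype_coe hJ0e.measurableSet_range
  have hmm1 : ∀ x : A, s (mm x) (x : X) ∈ range J0 := fun x => Nat.find_spec (hex x)
  have hsm : Measurable (fun x : A => s (mm x) (x : X)) := by
    have h1 : Measurable (fun q : ℕ × A => s q.1 (q.2 : X)) :=
      measurable_from_prod_countable_right fun n => (hs n).comp measurable_subtype_coe
    exact h1.comp (hmm.prodMk measurable_id)
  let φ : A → ℕ × C := fun x => (mm x, i0 (s (mm x) x))
  have hφm : Measurable φ := hmm.prodMk (hi0.comp hsm)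
  have hφ1 : ∀ x : A, J0 (φ x).2 = s (mm x) (x : X) := by
    intro x
    obtain ⟨z, hz⟩ := hmm1 x
    show J0 (i0 (s (mm x) x)) = _
    rw [← hz, hi0J']
  have hφi : Function.Injective φ := by
    intro x y hxy
    have h1 : mm x = mm y := congrArg Prod.fst hxy
    have h2 : J0 (φ x).2 = J0 (φ y).2 := by rw [hxy]
    rw [hφ1, hφ1, h1] at h2
    have h3 := congrArg (s (mm y)) h2
    rw [hinv, hinv] at h3
    exact Subtype.ext h3
  have hφE : ∀ x : A, E (x : X) (J (φ x)) := by
    intro x
    have h1 : E (x : X) (J0 (φ x).2) := by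
      rw [hφ1]
      exact (hsE _ _).2 ⟨mm x, rfl⟩
    exact hE.trans h1 ((hJE _ _).2 (E0_refl _))
  let JA : ℕ × C → A := fun p => ⟨J p, (hA1 _).2 ⟨p, hE.refl _⟩⟩
  have hJAm : Measurable JA := hJm.subtype_mk
  have hJAi : Function.Injective JA := fun p q h => hJi (congrArg Subtype.val h)
  obtain ⟨ψ, hψ⟩ := sb (hφm.measurableEmbedding hφi) (hJAm.measurableEmbedding hJAi)
  have hψE : ∀ x : A, E (x : X) (J (ψ x)) := by
    intro x
    rcases hψ x with h | h
    · rw [h]
      exact hφE x
    · have h1 : J (ψ x) = (x : X) := congrArg Subtype.val h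
      rw [h1]
      exact hE.refl _
  refine ⟨A, hAm, hAinv, ψ, fun x y => ?_⟩
  rw [← hJE]
  constructor
  · intro h
    exact hE.trans (hE.symm (hψE x)) (hE.trans h (hψE y))
  · intro h
    exact hE.trans (hψE x) (hE.trans h (hE.symm (hψE y)))

theorem main {X : Type} [MeasurableSpace X] [StandardBorelSpace X] (E : X → X → Prop)
    (hE : Equivalence E) (hm : MeasurableSet {p : X × X | E p.1 p.2})
    (hc : ∀ x, {y | E x y}.Countable)
    (hns : ¬ ∃ f : X → ℝ, Measurable f ∧ ∀ x y, E x y ↔ f x = f y) :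
    ∃ (Y : Type) (_ : TopologicalSpace Y) (_ : PolishSpace Y) (_ : MeasurableSpace Y)
      (_ : BorelSpace Y) (G : Type) (_ : Group G) (_ : Countable G) (_ : MulAction G Y),
      (∀ g : G, Continuous (fun y : Y => g • y)) ∧
      (∀ y : Y, ¬ IsOpen ({y} : Set Y)) ∧
      (∃ y : Y, Dense (MulAction.orbit G y)) ∧
      ∃ φ : X ≃ᵐ Y, ∀ x x' : X, E x x' ↔ ∃ g : G, g • φ x = φ x' := by
  classical
  obtain ⟨s, hs, hinv, hsE⟩ := Pool.Agent.H139R3.FM.feldman_moore E hE hm hc
  obtain ⟨A, hAm, hAinv, ψ, hψ⟩ := exists_part s hs hinv E hE hsE hns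
  have hAinv' : ∀ x y, E x y → y ∈ A → x ∈ A := fun x y h => hAinv y x (hE.symm h)
  have hSA : StandardBorelSpace A := hAm.standardBorel
  let X' : Type := (Aᶜ : Set X)
  have hSX' : StandardBorelSpace X' := hAm.compl.standardBorel
  let s' : ℕ → X' → X' := fun n x => ⟨s n x.1, fun h => x.2 (hAinv' _ _ ((hsE _ _).2 ⟨n, rfl⟩) h)⟩
  have hs' : ∀ n, Measurable (s' n) := fun n => ((hs n).comp measurable_subtype_coe).subtype_mk
  have hinv' : ∀ n x, s' n (s' n x) = x := fun n x => Subtype.ext (hinv n x.1)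
  let E' : X' → X' → Prop := fun x y => E x.1 y.1
  have hE' : Equivalence E' := ⟨fun x => hE.refl _, fun h => hE.symm h, fun h h' => hE.trans h h'⟩
  have hsE' : ∀ x y, E' x y ↔ ∃ n, s' n x = y := by
    intro x y
    refine (hsE x.1 y.1).trans ?_
    constructor
    · rintro ⟨n, hn⟩
      exact ⟨n, Subtype.ext hn⟩
    · rintro ⟨n, hn⟩
      exact ⟨n, congrArg Subtype.val hn⟩
  obtain ⟨t, hpol, hbor, hcont⟩ : ∃ t : TopologicalSpace X', @PolishSpace X' t ∧
      @BorelSpace X' t _ ∧ ∀ n, @Continuous X' X' t t (s' n) := by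
    let _ := upgradeStandardBorel X'
    obtain ⟨t, -, hpol, hbor, hcont, -⟩ := Pool.Agent.H139R3.MF.exists_topology (X := X')
      (H := Unit) s' hs' (fun _ => ()) measurable_const
    exact ⟨t, hpol, hbor, hcont⟩
  clear_value s'
  let _ : TopologicalSpace X' := t
  have := hpol
  have := hbor
  obtain ⟨D, ⟨S⟩⟩ := exists_data s' hinv' hE' hsE'
  let _ : MeasurableSpace (YY D) := borel (YY D)
  have hbY : BorelSpace (YY D) := ⟨rfl⟩
  let _ : MulAction (FreeGroup Ix) (YY D) := act D S hcont hinv'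
  have horb : ∀ y z : YY D, RR D E' y z ↔ ∃ g : FreeGroup Ix, g • y = z :=
    orbit_iff D S hcont hinv' hE' hsE'
  have hPC : PolishSpace C := polish_C
  have hSC : StandardBorelSpace C := inferInstance
  have hNC : BorelSpace (ℕ × C) := Prod.borelSpace
  refine ⟨YY D, inferInstance, inferInstance, inferInstance, hbY, FreeGroup Ix, inferInstance,
    inferInstance, inferInstance, ?_, not_open_singleton D, ?_, ?_⟩
  · intro g
    exact (FreeGroup.lift (gens D S hcont hinv') g).continuous
  · refine ⟨YY.r D (0, fun _ => false), ?_⟩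
    have h1 : Dense {p : ℕ × C | E0 (fun _ => false) p.2} := by
      have : {p : ℕ × C | E0 (fun _ => false) p.2} =
        (Prod.snd : ℕ × C → C) ⁻¹' {c | ∃ N, ∀ n, N ≤ n → false = c n} := rfl
      rw [this]
      exact (dense_E0 (fun _ => false)).preimage isOpenMap_snd
    refine (dense_r D h1).mono ?_
    rintro _ ⟨p, hp, rfl⟩
    obtain ⟨g, hg⟩ := (horb (YY.r D (0, fun _ => false)) (YY.r D p)).1 hp
    exact ⟨g, hg⟩
  · let F : X → YY D := fun x => if h : x ∈ A then YY.r D (ψ ⟨x, h⟩) else YY.l D ⟨x, h⟩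
    have hF1 : ∀ x (h : x ∈ A), F x = YY.r D (ψ ⟨x, h⟩) := fun x h => dif_pos h
    have hF2 : ∀ x (h : x ∉ A), F x = YY.l D ⟨x, h⟩ := fun x h => dif_neg h
    have hFm : Measurable F := by
      refine Measurable.dite (s := A) (f := fun x : A => YY.r D (ψ x))
        (g := fun x : (Aᶜ : Set X) => YY.l D x) ?_ ?_ hAm
      · exact (cont_r D).measurable.comp ψ.measurable
      · exact (cont_l D).measurable
    have hFb : Function.Bijective F := by
      constructor
      · intro x y hxy
        by_cases hx : x ∈ A <;> by_cases hy : y ∈ A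
        · rw [hF1 x hx, hF1 y hy] at hxy
          exact congrArg Subtype.val (ψ.injective (r_inj D hxy))
        · rw [hF1 x hx, hF2 y hy] at hxy
          exact absurd hxy.symm (l_ne_r D _ _)
        · rw [hF2 x hx, hF1 y hy] at hxy
          exact absurd hxy (l_ne_r D _ _)
        · rw [hF2 x hx, hF2 y hy] at hxy
          exact congrArg Subtype.val (l_inj D hxy)
      · intro y
        rcases cases D y with ⟨x, rfl⟩ | ⟨p, rfl⟩
        · exact ⟨x.1, hF2 _ x.2⟩
        · refine ⟨(ψ.symm p).1, ?_⟩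
          rw [hF1 _ (ψ.symm p).2]
          congr 1
          exact ψ.apply_symm_apply p
    obtain ⟨φ, hφ⟩ := bij_equiv F hFm hFb
    refine ⟨φ, fun x y => ?_⟩
    rw [hφ, hφ, ← horb]
    by_cases hx : x ∈ A <;> by_cases hy : y ∈ A
    · rw [hF1 x hx, hF1 y hy]
      exact hψ ⟨x, hx⟩ ⟨y, hy⟩
    · rw [hF1 x hx, hF2 y hy, RR_rl, iff_false]
      exact fun h => hy (hAinv _ _ h hx)
    · rw [hF2 x hx, hF1 y hy, RR_lr, iff_false]
      exact fun h => hx (hAinv' _ _ h hy)
    · rw [hF2 x hx, hF2 y hy, RR_ll]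

end Q203.TCA
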