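import Mathlib

/-!
# Attaching a countable family of Cantor sets to a Polish space

Given a Polish space `X`, a sequence `π : ℕ → X ⊕ Unit` and levels `ℓ : ℕ → ℕ`, the space `YY`
is the union of `X` and of countably many Cantor sets `{d} × 2^ℕ`; the `d`-th one lies near `π d`
when `ℓ d` is large.
-/

set_option autoImplicit false

open Set Topology

namespace Q203.TCA

abbrev C : Type := ℕ → Bool

theorem polish_C : PolishSpace C := { }
theorem polish_pi {X : Type*} [TopologicalSpace X] [PolishSpace X] : PolishSpace (ℕ → X) := { }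
theorem polish_sum {X Y : Type*} [TopologicalSpace X] [PolishSpace X] [TopologicalSpace Y]
    [PolishSpace Y] : PolishSpace (X ⊕ Y) := { }
theorem polish_prod {X Y : Type*} [TopologicalSpace X] [PolishSpace X] [TopologicalSpace Y]
    [PolishSpace Y] : PolishSpace (X × Y) := { }

/-- The data that determine the space. -/
structure Data (X : Type) [TopologicalSpace X] where
  π : ℕ → X ⊕ Unit
  ℓ : ℕ → ℕ
  pos : ∀ d, 1 ≤ ℓ d → ∃ x, π d = Sum.inl x
  dense : ∀ U : Set X, IsOpen U → U.Nonempty → ∀ N, ∃ d, N ≤ ℓ d ∧ ∃ x ∈ U, π d = Sum.inl x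

variable {X : Type} [TopologicalSpace X]

/-- The space. -/
def YY (_ : Data X) : Type := X ⊕ (ℕ × C)

abbrev PP (X : Type) : Type := (X ⊕ Unit) × (ℕ → Unit ⊕ (ℕ × C))

theorem polish_PP [PolishSpace X] : PolishSpace (PP X) := by
  have h0 : PolishSpace C := polish_C
  have h1 : PolishSpace (ℕ × C) := polish_prod
  have h2 : PolishSpace (Unit ⊕ (ℕ × C)) := polish_sum
  have h3 : PolishSpace (ℕ → Unit ⊕ (ℕ × C)) := polish_pi
  have h4 : PolishSpace (X ⊕ Unit) := polish_sum
  exact polish_prod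

variable (D : Data X)

def YY.l (x : X) : YY D := Sum.inl x
def YY.r (p : ℕ × C) : YY D := Sum.inr p

def io : YY D → PP X
  | Sum.inl x => (Sum.inl x, fun _ => Sum.inl ())
  | Sum.inr p => (D.π p.1, fun n => if D.ℓ p.1 ≤ n then Sum.inr p else Sum.inl ())

@[simp] theorem io_l (x : X) : io D (YY.l D x) = (Sum.inl x, fun _ => Sum.inl ()) := rfl
@[simp] theorem io_r (p : ℕ × C) : io D (YY.r D p) =
  (D.π p.1, fun n => if D.ℓ p.1 ≤ n then Sum.inr p else Sum.inl ()) := rfl

theorem cases (y : YY D) : (∃ x, y = YY.l D x) ∨ ∃ p, y = YY.r D p := by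
  cases y with
  | inl x => exact Or.inl ⟨x, rfl⟩
  | inr p => exact Or.inr ⟨p, rfl⟩

theorem l_inj : Function.Injective (YY.l D) := Sum.inl_injective
theorem r_inj : Function.Injective (YY.r D) := Sum.inr_injective
theorem l_ne_r (x : X) (p : ℕ × C) : YY.l D x ≠ YY.r D p := Sum.inl_ne_inr

theorem io_inj : Function.Injective (io D) := by
  intro a b h
  rcases cases D a with ⟨x, rfl⟩ | ⟨p, rfl⟩ <;> rcases cases D b with ⟨y, rfl⟩ | ⟨q, rfl⟩
  · simp only [io_l, Prod.mk.injEq, Sum.inl.injEq, and_true] at h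
    rw [h]
  · exfalso
    have h1 := congrFun (congrArg Prod.snd h) (D.ℓ q.1)
    simp at h1
  · exfalso
    have h1 := congrFun (congrArg Prod.snd h) (D.ℓ p.1)
    simp at h1
  · have h1 := congrFun (congrArg Prod.snd h) (max (D.ℓ p.1) (D.ℓ q.1))
    simp only [io_r, le_max_left, le_max_right, if_true, Sum.inr.injEq] at h1
    rw [h1]

instance : TopologicalSpace (YY D) := TopologicalSpace.induced (io D) inferInstance

theorem io_ind : IsInducing (io D) := ⟨rfl⟩

theorem io_cont : Continuous (io D) := (io_ind D).continuous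

/-- The set of points with `n`-th coordinate in the `d`-th Cantor set. -/
def cyl (n d : ℕ) : Set (PP X) := {p | ∃ c : C, p.2 n = Sum.inr (d, c)}

theorem cyl_clopen (n d : ℕ) : IsClopen (cyl (X := X) n d) := by
  have h1 : cyl (X := X) n d = (fun p : PP X => p.2 n) ⁻¹' (Sum.inr '' ({q : ℕ × C | q.1 = d})) := by
    ext p
    simp only [cyl, mem_ofPred_eq, mem_preimage, mem_image, Prod.exists]
    constructor
    · rintro ⟨c, hc⟩
      exact ⟨d, c, rfl, hc.symm⟩
    · rintro ⟨a, b, h, h'⟩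
      exact ⟨b, by rw [← h', ← h]⟩
  have h2 : IsClopen ({q : ℕ × C | q.1 = d}) :=
    (isClopen_discrete ({d} : Set ℕ)).preimage continuous_fst
  have h3 : IsClopen (Sum.inr '' ({q : ℕ × C | q.1 = d}) : Set (Unit ⊕ (ℕ × C))) :=
    ⟨IsClosedEmbedding.inr.isClosedMap _ h2.1, IsOpenEmbedding.inr.isOpenMap _ h2.2⟩
  rw [h1]
  exact h3.preimage ((continuous_apply n).comp continuous_snd)

theorem range_closed [T2Space X] : IsClosed (range (io D)) := by
  have h1 : range (io D) = (⋂ n, ⋂ d, ((cyl n d)ᶜ ∪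
      {p : PP X | p.1 = D.π d ∧ D.ℓ d ≤ n ∧ ∀ m, p.2 m = if D.ℓ d ≤ m then p.2 n else Sum.inl ()}))
      ∩ {p : PP X | p.1 ∈ range Sum.inl ∨ p.2 0 ∈ range Sum.inr} := by
    ext p
    simp only [mem_range, mem_inter_iff, mem_iInter, mem_union, mem_compl_iff, mem_ofPred_eq]
    constructor
    · rintro ⟨y, rfl⟩
      rcases cases D y with ⟨x, rfl⟩ | ⟨q, rfl⟩
      · refine ⟨fun n d => Or.inl ?_, Or.inl ⟨x, rfl⟩⟩
        rintro ⟨c, hc⟩
        simp at hc
      · refine ⟨fun n d => ?_, ?_⟩
        · by_cases hn : D.ℓ q.1 ≤ n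
          · by_cases hd : q.1 = d
            · right
              subst hd
              refine ⟨rfl, hn, fun m => ?_⟩
              simp [hn]
            · left
              rintro ⟨c, hc⟩
              simp only [io_r, hn, if_true, Sum.inr.injEq] at hc
              exact hd (congrArg Prod.fst hc)
          · left
            rintro ⟨c, hc⟩
            simp [hn] at hc
        · by_cases h0 : 1 ≤ D.ℓ q.1
          · left
            obtain ⟨x, hx⟩ := D.pos _ h0
            exact ⟨x, hx.symm⟩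
          · right
            refine ⟨q, ?_⟩
            have : D.ℓ q.1 ≤ 0 := by omega
            simp [this]
    · rintro ⟨h1, h2⟩
      by_cases h3 : ∃ n d, p ∈ cyl n d
      · obtain ⟨n, d, hp⟩ := h3
        obtain ⟨c, hc⟩ := hp
        rcases h1 n d with h | ⟨h4, h5, h6⟩
        · exact absurd ⟨c, hc⟩ h
        · refine ⟨YY.r D (d, c), ?_⟩
          rw [io_r]
          ext1
          · exact h4.symm
          · funext m
            rw [h6 m, hc]
      · have h4 : ∀ n, p.2 n = Sum.inl () := by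
          intro n
          rcases h5 : p.2 n with u | ⟨d, c⟩
          · rfl
          · exact absurd ⟨n, d, c, h5⟩ h3
        rcases h2 with ⟨x, hx⟩ | ⟨q, hq⟩
        · refine ⟨YY.l D x, ?_⟩
          rw [io_l]
          ext1
          · exact hx
          · funext m
            exact (h4 m).symm
        · rw [h4 0] at hq
          exact absurd hq (by simp)
  rw [h1]
  refine IsClosed.inter (isClosed_iInter fun n => isClosed_iInter fun d => IsClosed.union ?_ ?_) ?_
  · exact (cyl_clopen n d).2.isClosed_compl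
  · refine IsClosed.inter (isClosed_eq continuous_fst continuous_const) ?_
    by_cases h : D.ℓ d ≤ n
    · have : {p : PP X | D.ℓ d ≤ n ∧ ∀ m, p.2 m = if D.ℓ d ≤ m then p.2 n else Sum.inl ()} =
        ⋂ m, {p : PP X | p.2 m = if D.ℓ d ≤ m then p.2 n else Sum.inl ()} := by
        ext p
        simp [h]
      show IsClosed {p : PP X | D.ℓ d ≤ n ∧ ∀ m, p.2 m = if D.ℓ d ≤ m then p.2 n else Sum.inl ()}
      rw [this]
      refine isClosed_iInter fun m => ?_
      by_cases hm : D.ℓ d ≤ m
      · simp only [hm, if_true]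
        exact isClosed_eq ((continuous_apply m).comp continuous_snd)
          ((continuous_apply n).comp continuous_snd)
      · simp only [hm, if_false]
        exact isClosed_eq ((continuous_apply m).comp continuous_snd) continuous_const
    · have : {p : PP X | D.ℓ d ≤ n ∧ ∀ m, p.2 m = if D.ℓ d ≤ m then p.2 n else Sum.inl ()} = ∅ := by
        ext p
        simp [h]
      show IsClosed {p : PP X | D.ℓ d ≤ n ∧ ∀ m, p.2 m = if D.ℓ d ≤ m then p.2 n else Sum.inl ()}
      rw [this]
      exact isClosed_empty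
  · refine IsClosed.union ?_ ?_
    · exact IsClosedEmbedding.inl.isClosed_range.preimage continuous_fst
    · exact IsClosed.preimage (f := fun p : PP X => p.2 0)
        ((continuous_apply 0).comp continuous_snd) IsClosedEmbedding.inr.isClosed_range

theorem io_cemb [T2Space X] : IsClosedEmbedding (io D) :=
  ⟨⟨io_ind D, io_inj D⟩, range_closed D⟩

instance [PolishSpace X] : PolishSpace (YY D) :=
  have := polish_PP (X := X)
  (io_cemb D).polishSpace

theorem cont_l : Continuous (YY.l D) := by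
  rw [(io_ind D).continuous_iff]
  exact (continuous_inl.prodMk continuous_const)

theorem cont_r : Continuous (YY.r D) := by
  rw [(io_ind D).continuous_iff]
  refine Continuous.prodMk ?_ ?_
  · exact (continuous_of_discreteTopology (f := D.π)).comp continuous_fst
  · refine continuous_pi fun n => ?_
    have : (fun p : ℕ × C => if D.ℓ p.1 ≤ n then (Sum.inr p : Unit ⊕ (ℕ × C)) else Sum.inl ()) =
      (fun p : ℕ × C => if p ∈ {q : ℕ × C | D.ℓ q.1 ≤ n} then (Sum.inr p : Unit ⊕ (ℕ × C)) else Sum.inl ()) := rfl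
    have hcl : IsClopen {q : ℕ × C | D.ℓ q.1 ≤ n} :=
      (isClopen_discrete {d : ℕ | D.ℓ d ≤ n}).preimage continuous_fst
    show Continuous (fun p : ℕ × C => if D.ℓ p.1 ≤ n then (Sum.inr p : Unit ⊕ (ℕ × C)) else Sum.inl ())
    refine continuous_if (p := fun q : ℕ × C => D.ℓ q.1 ≤ n) ?_ continuous_inr.continuousOn continuous_const.continuousOn
    intro a ha
    rw [hcl.frontier_eq] at ha
    exact absurd ha (notMem_empty _)

/-- Each Cantor set is clopen. -/
theorem fiber_clopen (d : ℕ) : IsClopen {y : YY D | ∃ c : C, y = YY.r D (d, c)} := by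
  have : {y : YY D | ∃ c : C, y = YY.r D (d, c)} = io D ⁻¹' (cyl (D.ℓ d) d) := by
    ext y
    simp only [cyl, mem_ofPred_eq, mem_preimage]
    constructor
    · rintro ⟨c, rfl⟩
      exact ⟨c, by simp⟩
    · rintro ⟨c, hc⟩
      rcases cases D y with ⟨x, rfl⟩ | ⟨q, rfl⟩
      · simp at hc
      · refine ⟨c, ?_⟩
        rw [io_r] at hc
        by_cases h : D.ℓ q.1 ≤ D.ℓ d
        · simp only [h, if_true, Sum.inr.injEq] at hc
          rw [hc]
        · simp [h] at hc
  rw [this]
  exact (cyl_clopen _ _).preimage (io_cont D)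

theorem emb_r : IsOpenEmbedding (YY.r D) := by
  refine .of_continuous_injective_isOpenMap (cont_r D) (r_inj D) ?_
  intro U hU
  rw [isOpen_iff_forall_mem_open]
  rintro y ⟨⟨d, c⟩, hdc, rfl⟩
  -- the open set of points of the `d`-th Cantor set with second coordinate near `c`
  refine ⟨io D ⁻¹' ((fun p : PP X => p.2 (D.ℓ d)) ⁻¹' (Sum.inr '' (U ∩ {q | q.1 = d}))), ?_, ?_, ?_⟩
  · rintro z hz
    obtain ⟨q, ⟨hq1, hq2⟩, hq⟩ := hz
    rcases cases D z with ⟨x, rfl⟩ | ⟨q', rfl⟩
    · simp at hq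
    · refine ⟨q, hq1, ?_⟩
      rw [io_r] at hq
      by_cases h : D.ℓ q'.1 ≤ D.ℓ d
      · simp only [h, if_true, Sum.inr.injEq] at hq
        rw [hq]
      · simp [h] at hq
  · refine IsOpen.preimage (io_cont D) (IsOpen.preimage ((continuous_apply _).comp continuous_snd) ?_)
    refine IsOpenEmbedding.inr.isOpenMap _ (hU.inter ?_)
    exact ((isClopen_discrete ({d} : Set ℕ)).preimage continuous_fst).2
  · exact ⟨(d, c), ⟨hdc, rfl⟩, by simp⟩

/-- Points of the Cantor sets converge to the points of `X`. -/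
theorem near (x : X) {U : Set (YY D)} (hU : IsOpen U) (hx : YY.l D x ∈ U) :
    ∃ d, ∀ c, YY.r D (d, c) ∈ U := by
  obtain ⟨V, hV, rfl⟩ := (io_ind D).isOpen_iff.1 hU
  have h1 : io D (YY.l D x) ∈ V := hx
  obtain ⟨A, B, hA, hB, hxA, hxB, hAB⟩ := isOpen_prod_iff.1 hV _ _ h1
  obtain ⟨I, u, hu, huB⟩ := isOpen_pi_iff.1 hB _ hxB
  have hA' : IsOpen (Sum.inl ⁻¹' A : Set X) := hA.preimage continuous_inl
  obtain ⟨d, hd, z, hz, hdz⟩ := D.dense (Sum.inl ⁻¹' A) hA' ⟨x, hxA⟩ (I.sup id + 1)
  refine ⟨d, fun c => hAB ⟨?_, huB ?_⟩⟩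
  · show D.π d ∈ A
    rw [hdz]
    exact hz
  · intro i hi
    have h2 : i ≤ I.sup id := Finset.le_sup (f := id) hi
    have h3 : ¬ D.ℓ d ≤ i := by omega
    show (if D.ℓ d ≤ i then (Sum.inr (d, c) : Unit ⊕ (ℕ × C)) else Sum.inl ()) ∈ u i
    rw [if_neg h3]
    exact (hu i hi).2

theorem dense_r {S : Set (ℕ × C)} (hS : Dense S) : Dense (YY.r D '' S) := by
  rw [dense_iff_inter_open]
  intro U hU ⟨y, hy⟩
  have h2 : ∃ p, YY.r D p ∈ U := by
    rcases cases D y with ⟨x, rfl⟩ | ⟨q, rfl⟩
    · obtain ⟨d, hd⟩ := near D x hU hy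
      exact ⟨(d, fun _ => false), hd _⟩
    · exact ⟨q, hy⟩
  obtain ⟨p, hp⟩ := h2
  obtain ⟨q, hq1, hq2⟩ := dense_iff_inter_open.1 hS _ (hU.preimage (cont_r D)) ⟨p, hp⟩
  exact ⟨YY.r D q, hq1, q, hq2, rfl⟩

theorem not_open_singleton (y : YY D) : ¬ IsOpen ({y} : Set (YY D)) := by
  intro h
  have h1 : ∃ p, YY.r D p ∈ ({y} : Set (YY D)) := by
    obtain ⟨z, hz, q, -, hq⟩ := dense_iff_inter_open.1 (dense_r D (dense_univ)) _ h ⟨y, rfl⟩
    exact ⟨q, hq ▸ hz⟩
  obtain ⟨⟨d, c⟩, hp⟩ := h1
  have h2 : IsOpen ((fun c' : C => YY.r D (d, c')) ⁻¹' {y}) :=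
    h.preimage ((cont_r D).comp (continuous_const.prodMk continuous_id))
  have h3 : ((fun c' : C => YY.r D (d, c')) ⁻¹' {y}) = {c} := by
    ext c'
    simp only [mem_preimage, mem_singleton_iff]
    constructor
    · intro h4
      have h5 : YY.r D (d, c') = YY.r D (d, c) := by
        rw [h4]
        exact (mem_singleton_iff.1 hp).symm
      exact congrArg Prod.snd (r_inj D h5)
    · rintro rfl
      exact hp
  rw [h3] at h2
  have h4 := isOpen_pi_iff.1 h2 c rfl
  obtain ⟨I, u, hu, huB⟩ := h4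
  obtain ⟨n, hn⟩ := Infinite.exists_notMem_finset I
  have h5 : Function.update c n (!(c n)) ∈ ({c} : Set C) := by
    apply huB
    intro i hi
    have : i ≠ n := fun h => hn (h ▸ hi)
    rw [Function.update_of_ne this]
    exact (hu i hi).2
  have h6 := congrFun (mem_singleton_iff.1 h5) n
  simp at h6

end Q203.TCA
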